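import Mathlib
import Pool.Agent.D0H33.FB.A37

set_option autoImplicit false

open Set Metric Filter Topology

namespace Pool.Agent.Results.MP_4bb143_an.FlatGraph

/-- The positive phase `{x ∈ Ω : u x > 0}`. -/
def Pos (Ω : Set (EuclideanSpace ℝ (Fin 3))) (u : EuclideanSpace ℝ (Fin 3) → ℝ) :
    Set (EuclideanSpace ℝ (Fin 3)) := {x | x ∈ Ω ∧ 0 < u x}

/-- The zero phase `{x ∈ Ω : u x = 0}`. -/
def Zer (Ω : Set (EuclideanSpace ℝ (Fin 3))) (u : EuclideanSpace ℝ (Fin 3) → ℝ) :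
    Set (EuclideanSpace ℝ (Fin 3)) := {x | x ∈ Ω ∧ u x = 0}

/-- The free boundary: the part in `Ω` of the boundary of the positive phase. -/
def Free (Ω : Set (EuclideanSpace ℝ (Fin 3))) (u : EuclideanSpace ℝ (Fin 3) → ℝ) :
    Set (EuclideanSpace ℝ (Fin 3)) := Ω ∩ frontier (Pos Ω u)

/-- Classical one-phase solutions on `Ω`: `u` is continuous and nonnegative on `Ω`, harmonic at the
interior points of `Ω` where it is positive, and near each free boundary point `p` in the interior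
of `Ω` there is a function `G` of class `C^1` with `G p = 0` and `|∇G(p)| = 1` such that near `p`
the positive phase is `{G > 0}` and `u = G` there. In particular the free boundary is a `C^1`
surface, `u` is `C^1` up to it from the positive side, and `|∇u| = 1` on it (smooth solutions are
a special case). -/
structure Classical (Ω : Set (EuclideanSpace ℝ (Fin 3))) (u : EuclideanSpace ℝ (Fin 3) → ℝ) :
    Prop where
  cont : ContinuousOn u Ω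
  nonneg : ∀ x ∈ Ω, 0 ≤ u x
  harm : InnerProductSpace.HarmonicOnNhd u (Pos Ω u ∩ interior Ω)
  bdry : ∀ p ∈ Free Ω u ∩ interior Ω, ∃ G : EuclideanSpace ℝ (Fin 3) → ℝ,
    ContDiffAt ℝ 1 G p ∧ G p = 0 ∧ ‖fderiv ℝ G p‖ = 1 ∧
      ∀ᶠ x in 𝓝 p, (0 < u x ↔ 0 < G x) ∧ (0 < u x → u x = G x)

/-- Question Q1 is answered in the affirmative. -/
theorem result : ∃ δ₀ ε C : ℝ, 0 < δ₀ ∧ δ₀ < 1 ∧ 0 < ε ∧ 0 < C ∧
    ∀ (δ : ℝ) (Ω : Set (EuclideanSpace ℝ (Fin 3))) (u : EuclideanSpace ℝ (Fin 3) → ℝ),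
      0 < δ → δ ≤ δ₀ → {x | δ < ‖x‖ ∧ ‖x‖ < 1} ⊆ Ω → Ω ⊆ {x | δ ≤ ‖x‖ ∧ ‖x‖ < 1} →
      Classical Ω u → ContractibleSpace (Pos Ω u) → ContractibleSpace (Zer Ω u) →
      {x | x ∈ Ω ∧ ε < x 2} ⊆ Pos Ω u → {x | x ∈ Ω ∧ x 2 < -ε} ⊆ Zer Ω u →
      ∃ g : EuclideanSpace ℝ (Fin 2) → ℝ, ContDiff ℝ 1 g ∧ (∀ y, ‖fderiv ℝ g y‖ ≤ 1 / 100) ∧
        Free Ω u ∩ {x | C * δ < ‖x‖ ∧ ‖x‖ < 1 / C} =
          {x | (C * δ < ‖x‖ ∧ ‖x‖ < 1 / C) ∧ x 2 = g !₂[x 0, x 1]} := by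
  obtain ⟨δ₀, ε, C, hδ₀, hδ₁, hε, hC, hmain⟩ := Pool.Agent.D0H33.FB.main_sol
  refine ⟨δ₀, ε, C, hδ₀, hδ₁, hε, by linarith, ?_⟩
  intro δ Ω u hδ hδle hΩ1 hΩ2 hcl hP hZ hf1 hf2
  set D := Pool.Agent.D0H33.FB.ann δ 1 with hD
  have hDo : IsOpen D := Pool.Agent.D0H33.FB.ann_open δ 1
  have hDΩ : D ⊆ Ω := hΩ1
  have hDi : D ⊆ interior Ω := interior_maximal hDΩ hDo
  have hNN : Pool.Agent.D0H33.FB.NN D u = Pos Ω u ∩ D := by
    ext x
    constructor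
    · rintro ⟨h1, h2⟩
      exact ⟨⟨hDΩ h1, h2⟩, h1⟩
    · rintro ⟨h1, h2⟩
      exact ⟨h2, h1.2⟩
  have hFF : Pool.Agent.D0H33.FB.FF D u = Free Ω u ∩ D := by
    unfold Pool.Agent.D0H33.FB.FF Free
    rw [hNN, inter_comm D, frontier_inter_open_inter hDo]
    ext x
    constructor
    · rintro ⟨h1, h2⟩
      exact ⟨⟨hDΩ h2, h1⟩, h2⟩
    · rintro ⟨⟨-, h1⟩, h2⟩
      exact ⟨h1, h2⟩
  have hharm : ∀ x ∈ Pool.Agent.D0H33.FB.NN D u, InnerProductSpace.HarmonicAt u x := by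
    intro x hx
    exact hcl.harm x ⟨⟨hDΩ hx.1, hx.2⟩, hDi hx.1⟩
  have hsol : Pool.Agent.D0H33.FB.Sol D u := by
    refine ⟨hDo, hcl.cont.mono hDΩ, fun x hx => hcl.nonneg x (hDΩ hx), ?_, ?_, ?_⟩
    · intro x hx
      exact (hharm x hx).1.contDiffWithinAt
    · intro x hx
      have h1 := (hharm x hx).2.self_of_nhds
      rw [InnerProductSpace.laplacian_eq_iteratedFDeriv_orthonormalBasis u
        (EuclideanSpace.basisFun (Fin 3) ℝ)] at h1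
      unfold ExtStar.lap
      have h2 : ∀ i : Fin 3, (fun _ : Fin 2 => EuclideanSpace.single i (1 : ℝ)) =
          ![EuclideanSpace.basisFun (Fin 3) ℝ i, EuclideanSpace.basisFun (Fin 3) ℝ i] := by
        intro i
        funext j
        fin_cases j <;> simp
      simp only [h2]
      exact h1
    · intro p hp
      rw [hFF] at hp
      exact hcl.bdry p ⟨hp.1, hDi hp.2⟩
  have h0 : (0 : EuclideanSpace ℝ (Fin 3)) ∉ Ω := by
    intro h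
    have := (hΩ2 h).1
    rw [norm_zero] at this
    linarith
  have hsph := Pool.Agent.D0H33.FB.sphere_meets (X := Pos Ω u) (Y := Zer Ω u) hsol hδ (subset_refl _)
    (fun h => h0 h.1) (fun h => h0 h.1) (fun x hx h1 => ⟨hDΩ hx, h1⟩) (fun x hx h1 => ⟨hDΩ hx, h1⟩) hP hZ
  obtain ⟨g, hg1, hg2, hg3⟩ := hmain δ D u hδ hδle hsol (subset_refl _) hsph
    (by
      intro x hx h1
      exact ⟨hx, (hf1 ⟨hDΩ hx, h1⟩).2⟩)
    (by
      intro x hx h1 h2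
      have h3 := (hf2 ⟨hDΩ hx, h1⟩).2
      have h4 := h2.2
      rw [h3] at h4
      exact lt_irrefl _ h4)
  refine ⟨g, hg1, hg2, ?_⟩
  have hpr : ∀ x : EuclideanSpace ℝ (Fin 3), Pool.Agent.D0H33.FB.pr x = !₂[x 0, x 1] := fun _ => rfl
  have hA : ∀ x : EuclideanSpace ℝ (Fin 3), C * δ < ‖x‖ → ‖x‖ < 1 / C → x ∈ D := by
    intro x h1 h2
    refine ⟨by nlinarith, lt_of_lt_of_le h2 ?_⟩
    rw [div_le_one (by linarith)]
    exact hC
  ext x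
  constructor
  · rintro ⟨h1, h2, h3⟩
    refine ⟨⟨h2, h3⟩, ?_⟩
    have h4 : x ∈ Pool.Agent.D0H33.FB.FF D u := by
      rw [hFF]; exact ⟨h1, hA x h2 h3⟩
    rw [← hpr]
    exact (hg3 x h2 h3).1 h4
  · rintro ⟨⟨h2, h3⟩, h1⟩
    rw [← hpr] at h1
    have h4 := (hg3 x h2 h3).2 h1
    rw [hFF] at h4
    exact ⟨h4.1, h2, h3⟩

end Pool.Agent.Results.MP_4bb143_an.FlatGraph
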